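import Mathlib

/-!
# MP_be8152_al, Q1 answered negatively

On `k^4` with the only nonzero product of basis vectors `e_0 e_0 = e_1` there are at least six
classes of Bernstein operators.
-/

namespace Pool.Agent.Results.MP_be8152_al.BernsteinClasses

open Module

universe u

section defs

variable {k : Type u} [Field k] {n : ℕ}

/-- a bilinear product on `k^n` -/
abbrev Product (k : Type u) [Field k] (n : ℕ) : Type u :=
  (Fin n → k) →ₗ[k] (Fin n → k) →ₗ[k] (Fin n → k)

/-- `mul` is a 4-algebra structure: commutative with `(x²)² = 0`. -/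
def IsFourAlgebra (mul : Product k n) : Prop :=
  (∀ x y, mul x y = mul y x) ∧ ∀ x, mul (mul x x) (mul x x) = 0

/-- `Ω` is a Bernstein operator on `(k^n, mul)`. -/
def IsBernstein (mul : Product k n) (Ω : (Fin n → k) →ₗ[k] (Fin n → k)) : Prop :=
  (∀ x, Ω (Ω x) = Ω x) ∧ (∀ x, mul (mul x x) (Ω x) = 0) ∧
    ∀ x, mul (Ω x) (Ω x) + Ω (mul x x) = mul x x

/-- The relation `Ω ≈ Ω'`. -/
def Related (mul : Product k n) (Ω Ω' : (Fin n → k) →ₗ[k] (Fin n → k)) : Prop :=
  ∃ (f : (Fin n → k) ≃ₗ[k] (Fin n → k)) (v₀ : Fin n → k),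
    (∀ x y, f (mul x y) = mul (f x) (f y)) ∧
    (∀ x, Ω' x = f (Ω (f.symm x)) - (2 : k) • mul x v₀) ∧ Ω' v₀ = v₀ - mul v₀ v₀

end defs

variable {k : Type u} [Field k]

/-- the product on `k^4` with `e_0 e_0 = e_1` -/
def mul4 : Product k 4 :=
  LinearMap.mk₂ k (fun x y => (x 0 * y 0) • (Pi.single 1 1 : Fin 4 → k))
    (by intro x x' y; simp only [Pi.add_apply, add_mul, add_smul])
    (by intro c x y; simp only [Pi.smul_apply, smul_eq_mul, mul_assoc, mul_smul])
    (by intro x y y'; simp only [Pi.add_apply, mul_add, add_smul])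
    (by
      intro c x y
      simp only [Pi.smul_apply, smul_eq_mul]
      rw [← mul_smul]; congr 1; ring)

lemma mul4_apply (x y : Fin 4 → k) : mul4 x y = (x 0 * y 0) • (Pi.single 1 1 : Fin 4 → k) := rfl

lemma mul4_zero (x y : Fin 4 → k) : mul4 x y 0 = 0 := by simp [mul4_apply]
lemma mul4_one (x y : Fin 4 → k) : mul4 x y 1 = x 0 * y 0 := by simp [mul4_apply]
lemma mul4_two (x y : Fin 4 → k) : mul4 x y 2 = 0 := by simp [mul4_apply]
lemma mul4_three (x y : Fin 4 → k) : mul4 x y 3 = 0 := by simp [mul4_apply]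

lemma isFour : IsFourAlgebra (mul4 : Product k 4) := by
  refine ⟨fun x y => ?_, fun x => ?_⟩
  · rw [mul4_apply, mul4_apply, mul_comm]
  · rw [mul4_apply (mul4 x x), mul4_zero]; simp

/-- the diagonal operator with diagonal `d` -/
def dg (d : Fin 4 → k) : (Fin 4 → k) →ₗ[k] (Fin 4 → k) where
  toFun x := fun i => d i * x i
  map_add' x y := by funext i; simp [mul_add]
  map_smul' c x := by funext i; simp; ring

lemma dg_apply (d x : Fin 4 → k) (i : Fin 4) : dg d x i = d i * x i := rfl

lemma dg_bernstein (d : Fin 4 → k) (hd : ∀ i, d i * d i = d i) (h01 : d 1 = 1 - d 0) :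
    IsBernstein mul4 (dg d) := by
  refine ⟨fun x => ?_, fun x => ?_, fun x => ?_⟩
  · funext i
    simp only [dg_apply]
    rw [← mul_assoc, hd]
  · rw [mul4_apply, mul4_zero]; simp
  · funext i
    simp only [Pi.add_apply, dg_apply]
    fin_cases i
    · simp [mul4_zero]
    · simp only [Fin.mk_one, mul4_one, dg_apply, h01]
      have := hd 0
      linear_combination (x 0 * x 0) * this
    · change mul4 (dg d x) (dg d x) 2 + d 2 * mul4 x x 2 = mul4 x x 2
      simp [mul4_two]
    · change mul4 (dg d x) (dg d x) 3 + d 3 * mul4 x x 3 = mul4 x x 3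
      simp [mul4_three]

lemma trace_dg (d : Fin 4 → k) :
    LinearMap.trace k (Fin 4 → k) (dg d) = d 0 + d 1 + d 2 + d 3 := by
  rw [LinearMap.trace_eq_matrix_trace k (Pi.basisFun k (Fin 4))]
  simp [Matrix.trace, dg_apply, Fin.sum_univ_four]

/-- right multiplication by `v` -/
lemma trace_mul (v : Fin 4 → k) :
    LinearMap.trace k (Fin 4 → k) (mul4.flip v) = 0 := by
  rw [LinearMap.trace_eq_matrix_trace k (Pi.basisFun k (Fin 4))]
  simp [Matrix.trace, Fin.sum_univ_four, mul4_apply]

lemma related_imp (d d' : Fin 4 → k) (h : Related mul4 (dg d) (dg d')) :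
    d 1 = d' 1 ∧ d 0 + d 1 + d 2 + d 3 = d' 0 + d' 1 + d' 2 + d' 3 := by
  obtain ⟨f, v, hf, hΩ, -⟩ := h
  constructor
  · -- `f e_1 = c e_1`
    have h1 : (Pi.single 1 1 : Fin 4 → k) = mul4 (Pi.single 0 1) (Pi.single 0 1) := by
      rw [mul4_apply]; simp
    have h2 : f (Pi.single 1 1) =
        (f (Pi.single 0 1) 0 * f (Pi.single 0 1) 0) • (Pi.single 1 1 : Fin 4 → k) := by
      conv_lhs => rw [h1]
      rw [hf, mul4_apply]
    set c := f (Pi.single 0 1) 0 * f (Pi.single 0 1) 0 with hc
    have hc0 : c ≠ 0 := by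
      intro h0
      rw [h0, zero_smul] at h2
      have h3 : (Pi.single 1 1 : Fin 4 → k) = 0 := by
        have := f.map_eq_zero_iff.1 h2
        exact this
      have := congrFun h3 1
      simp at this
    have h3 := hΩ (f (Pi.single 1 1))
    rw [f.symm_apply_apply] at h3
    have h4 : dg d (Pi.single 1 1) = d 1 • (Pi.single 1 1 : Fin 4 → k) := by
      funext i
      rw [dg_apply]
      by_cases hi : i = 1
      · subst hi; simp
      · simp [Pi.single_eq_of_ne hi]
    rw [h4, map_smul, h2] at h3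
    have h5 := congrFun h3 1
    simp [dg_apply, mul4_apply] at h5
    rcases h5 with h5 | h5
    · exact h5.symm
    · exact absurd h5 hc0
  · have h7 : dg d' = (f : (Fin 4 → k) →ₗ[k] (Fin 4 → k)) ∘ₗ dg d ∘ₗ
        (f.symm : (Fin 4 → k) →ₗ[k] (Fin 4 → k)) - (2 : k) • mul4.flip v := by
      ext1
      apply LinearMap.ext
      intro x
      simp only [LinearMap.comp_apply, LinearMap.sub_apply, LinearMap.smul_apply,
        LinearMap.flip_apply, LinearEquiv.coe_coe]
      rw [hΩ]
    have h8 := congrArg (LinearMap.trace k (Fin 4 → k)) h7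
    rw [map_sub, map_smul, trace_mul, smul_zero, sub_zero, trace_dg] at h8
    rw [h8]
    have h9 := LinearMap.trace_conj' (dg d) f
    rw [LinearEquiv.conj_apply, trace_dg] at h9
    rw [← h9]
    rfl

/-- the six operators -/
def om (k : Type u) [Field k] (a : Fin 6) : (Fin 4 → k) →ₗ[k] (Fin 4 → k) :=
  dg (![![0, 1, 0, 0], ![0, 1, 1, 0], ![0, 1, 1, 1], ![1, 0, 0, 0], ![1, 0, 1, 0], ![1, 0, 1, 1]] a)

/-- Q1 has a negative answer: over every infinite field of characteristic not two there are `n ≥ 1`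
and a 4-algebra structure on `k^n` with at least `n + 2` pairwise inequivalent Bernstein
operators. -/
theorem result : ∀ (k : Type u) [Field k] [Infinite k], (2 : k) ≠ 0 →
    ∃ n : ℕ, 1 ≤ n ∧ ∃ mul : Product k n, IsFourAlgebra mul ∧
      ∃ Ω : Fin (n + 2) → ((Fin n → k) →ₗ[k] (Fin n → k)),
        (∀ a, IsBernstein mul (Ω a)) ∧ ∀ a b, a ≠ b → ¬ Related mul (Ω a) (Ω b) := by
  intro k _ _ h2
  refine ⟨4, by norm_num, mul4, isFour, om k, ?_, ?_⟩
  · intro a
    apply dg_bernstein
    · intro i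
      fin_cases a <;> fin_cases i <;> simp
    · fin_cases a <;> simp
  · intro a b hab h
    obtain ⟨h1, ht⟩ := related_imp _ _ h
    fin_cases a <;> fin_cases b <;> simp at hab h1 ht <;>
      exact h2 (by linear_combination ht)

end Pool.Agent.Results.MP_be8152_al.BernsteinClasses
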