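import Mathlib

namespace Pool.Agent.Results.MP_be8152_al.NoBernsteinOperator

/-- `m` is a 4-algebra structure on `V`: a commutative bilinear product with `(x ^ 2) ^ 2 = 0`. -/
def IsFourAlgebra {k V : Type*} [Field k] [AddCommGroup V] [Module k V]
    (m : V →ₗ[k] V →ₗ[k] V) : Prop :=
  (∀ x y, m x y = m y x) ∧ ∀ x, m (m x x) (m x x) = 0

/-- `Ω` is a Bernstein operator on the 4-algebra `(V, m)`. -/
def IsBernsteinOperator {k V : Type*} [Field k] [AddCommGroup V] [Module k V]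
    (m : V →ₗ[k] V →ₗ[k] V) (Ω : V →ₗ[k] V) : Prop :=
  (∀ x, Ω (Ω x) = Ω x) ∧ (∀ x, m (m x x) (Ω x) = 0) ∧
    ∀ x, m (Ω x) (Ω x) + Ω (m x x) = m x x

/-- Over every infinite field of characteristic different from two there is a 4-algebra structure
on `k ^ 8` without any Bernstein operator. -/
theorem result (k : Type*) [Field k] [Infinite k] (hk : ringChar k ≠ 2) :
    ∃ m : (Fin 8 → k) →ₗ[k] (Fin 8 → k) →ₗ[k] (Fin 8 → k),
      IsFourAlgebra m ∧ ¬ ∃ Ω : (Fin 8 → k) →ₗ[k] (Fin 8 → k), IsBernsteinOperator m Ω := by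
  have h2 : (2 : k) ≠ 0 := Ring.two_ne_zero hk
  let P : (Fin 8 → k) → (Fin 8 → k) → (Fin 8 → k) := fun x y =>
    ![0, 0, x 0 * y 0, x 1 * y 1, x 0 * y 1 + x 1 * y 0, x 0 * y 2 + x 2 * y 0,
      x 1 * y 3 + x 3 * y 1, x 2 * y 3 + x 3 * y 2 - 2⁻¹ * (x 4 * y 4)]
  obtain ⟨m, hm⟩ : ∃ m : (Fin 8 → k) →ₗ[k] (Fin 8 → k) →ₗ[k] (Fin 8 → k), ∀ x y, m x y = P x y :=
    ⟨LinearMap.mk₂ k P
    (by intro x x' y; ext i; fin_cases i <;> simp [P] <;> ring)
    (by intro c x y; ext i; fin_cases i <;> simp [P] <;> ring)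
    (by intro x y y'; ext i; fin_cases i <;> simp [P] <;> ring)
    (by intro c x y; ext i; fin_cases i <;> simp [P] <;> ring), fun x y => rfl⟩
  have m0 : ∀ x y, m x y 0 = 0 := fun x y => by rw [hm]; rfl
  have m1 : ∀ x y, m x y 1 = 0 := fun x y => by rw [hm]; rfl
  have m2 : ∀ x y, m x y 2 = x 0 * y 0 := fun x y => by rw [hm]; rfl
  have m3 : ∀ x y, m x y 3 = x 1 * y 1 := fun x y => by rw [hm]; rfl
  have m4 : ∀ x y, m x y 4 = x 0 * y 1 + x 1 * y 0 := fun x y => by rw [hm]; rfl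
  have m5 : ∀ x y, m x y 5 = x 0 * y 2 + x 2 * y 0 := fun x y => by rw [hm]; rfl
  have m6 : ∀ x y, m x y 6 = x 1 * y 3 + x 3 * y 1 := fun x y => by rw [hm]; rfl
  have m7 : ∀ x y, m x y 7 = x 2 * y 3 + x 3 * y 2 - 2⁻¹ * (x 4 * y 4) :=
    fun x y => by rw [hm]; rfl
  clear_value P
  have hcomm : ∀ x y, m x y = m y x := by
    intro x y
    have key : ∀ i : Fin 8, m x y i = m y x i := by
      intro i
      match i with
      | 0 => rw [m0, m0]
      | 1 => rw [m1, m1]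
      | 2 => rw [m2, m2]; ring
      | 3 => rw [m3, m3]; ring
      | 4 => rw [m4, m4]; ring
      | 5 => rw [m5, m5]; ring
      | 6 => rw [m6, m6]; ring
      | 7 => rw [m7, m7]; ring
    exact funext key
  have hfour : ∀ x, m (m x x) (m x x) = 0 := by
    intro x
    have key : ∀ i : Fin 8, m (m x x) (m x x) i = 0 := by
      intro i
      match i with
      | 0 => rw [m0]
      | 1 => rw [m1]
      | 2 => rw [m2, m0]; ring
      | 3 => rw [m3, m1]; ring
      | 4 => rw [m4, m0, m1]; ring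
      | 5 => rw [m5, m0]; ring
      | 6 => rw [m6, m1]; ring
      | 7 => rw [m7, m2, m3, m4]; field_simp; ring
    exact funext key
  refine ⟨m, ⟨hcomm, hfour⟩, ?_⟩
  rintro ⟨Ω, h1, h2', h3⟩
  -- elements of the image lie in the square of the algebra
  have hU : ∀ x, Ω x 0 = 0 ∧ Ω x 1 = 0 := by
    intro x
    have h4 := h2' (Ω x)
    rw [h1] at h4
    have h5 := congrFun h4 5
    have h6 := congrFun h4 6
    rw [m5, m0, m2] at h5
    rw [m6, m1, m3] at h6
    simp only [Pi.zero_apply, zero_mul, zero_add] at h5 h6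
    constructor
    · by_contra h
      exact (mul_ne_zero (mul_ne_zero h h) h) h5
    · by_contra h
      exact (mul_ne_zero (mul_ne_zero h h) h) h6
  set a : Fin 8 → k := Pi.single 0 1 with ha
  set b : Fin 8 → k := Pi.single 1 1 with hb
  set z₁ := a - Ω a with hz₁
  set z₂ := b - Ω b with hz₂
  have hΩ₁ : Ω z₁ = 0 := by rw [hz₁, map_sub, h1, sub_self]
  have hΩ₂ : Ω z₂ = 0 := by rw [hz₂, map_sub, h1, sub_self]
  have hsq : Ω (m z₁ z₁) = m z₁ z₁ := by
    have := h3 z₁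
    rw [hΩ₁] at this
    simpa using this
  set p := m z₁ z₁ with hp
  have e1 := h2' (p + z₂)
  have e2 := h2' (p - z₂)
  have f1 : Ω (p + z₂) = p := by rw [map_add, hsq, hΩ₂, add_zero]
  have f2 : Ω (p - z₂) = p := by rw [map_sub, hsq, hΩ₂, sub_zero]
  rw [f1] at e1
  rw [f2] at e2
  have e3 : m (m z₂ z₂) p = 0 := by
    have e4 : m (m (p + z₂) (p + z₂)) p + m (m (p - z₂) (p - z₂)) p =
        (2 : k) • m (m p p) p + (2 : k) • m (m z₂ z₂) p := by
      simp only [map_add, map_sub, LinearMap.add_apply, LinearMap.sub_apply]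
      rw [two_smul, two_smul]
      abel
    rw [e1, e2, hp, hfour z₁, map_zero, LinearMap.zero_apply, smul_zero, zero_add, zero_add] at e4
    exact (smul_eq_zero.1 e4.symm).resolve_left h2
  have e5 := congrFun e3 7
  have a0 : z₁ 0 = 1 := by rw [hz₁, Pi.sub_apply, (hU a).1]; simp [ha]
  have a1 : z₁ 1 = 0 := by rw [hz₁, Pi.sub_apply, (hU a).2]; simp [ha]
  have b0 : z₂ 0 = 0 := by rw [hz₂, Pi.sub_apply, (hU b).1]; simp [hb]
  have b1 : z₂ 1 = 1 := by rw [hz₂, Pi.sub_apply, (hU b).2]; simp [hb]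
  rw [m7, hp, m2, m3, m4, m2, m3, m4, a0, a1, b0, b1] at e5
  simp at e5

end Pool.Agent.Results.MP_be8152_al.NoBernsteinOperator
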